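import Mathlib
import Pool.Agent.H.MP_74d590_lc.P

namespace Pool.Agent.Results.MP_74d590_lc.Und

open Pool.Agent.H.MP_74d590_lc Pool.Agent.Lib.helper21.Mach

/-- the free part of the shift on `2^(ℤ^n)` -/
def Free (n : ℕ) : Set ((Fin n → ℤ) → Bool) := {x | ∀ g, g ≠ 0 → (fun h => x (h + g)) ≠ x}

/-- the translates `g + T` with `T` in the tile set and `P g T` cover every point exactly once -/
def Tiling {n : ℕ} (𝒯 : List (List (Fin n → ℤ))) (P : (Fin n → ℤ) → Finset (Fin n → ℤ) → Prop) : Prop :=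
  ∀ h, ∃! p : (Fin n → ℤ) × Finset (Fin n → ℤ), p.2 ∈ 𝒯.map List.toFinset ∧ P p.1 p.2 ∧ h - p.1 ∈ p.2

/-- a continuous tiling of the free part exists -/
def CT {n : ℕ} (𝒯 : List (List (Fin n → ℤ))) : Prop :=
  ∃ C : Finset (Fin n → ℤ) → Set ((Fin n → ℤ) → Bool), (∀ T, IsClopen (Subtype.val ⁻¹' C T : Set (Free n))) ∧
    ∀ x ∈ Free n, Tiling 𝒯 fun g T => (fun h => x (h + g)) ∈ C T

theorem result (n : ℕ) (hn : 2 ≤ n) : ¬ ∃ f : List (List (Fin n → ℤ)) →. Bool, Partrec f ∧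
    ∀ 𝒯, (∀ T ∈ 𝒯, T ≠ []) → (∃ P, Tiling 𝒯 P) → ∃ b ∈ f 𝒯, (b = true ↔ CT 𝒯) := by
  obtain ⟨m, rfl⟩ := Nat.exists_eq_add_of_le' hn
  rintro ⟨f, hf, H⟩
  obtain ⟨Q, _, M, hM⟩ := exists_cm
  obtain ⟨e, K, L, he, pL, hL⟩ := lists M m
  have mt : ∀ {n τ}, Al M e n (3 * K n + 4) τ → ∀ {p u} g, emb m u + g - (emb m p + g) ∈ tile m (K n) τ ↔ Cov (Sh (K n)) p τ u := fun a =>
    a.elim fun _ ⟨_, _, _, b⟩ => mem_tile ((hL _).1 _ a) b.2.1 b.2.2.2
  have e0 : emb m 0 = 0 := by funext; simp [emb]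
  have up : ∀ n (Pl : (Fin (m + 2) → ℤ) → Ty → Prop), (∀ g τ, Pl g τ → Al M e n (3 * K n + 4) τ) → (∀ h, Til (Bd (K n)) fun p => Pl (emb m p + h)) →
      (∀ h, Nb (K n) fun p => Pl (emb m p + h)) → Tiling (L n) fun g T => ∃ τ, Pl g τ ∧ (tile m (K n) τ).toFinset = T := fun n Pl a b c h => by
    obtain ⟨d, u⟩ := assemble (fun p τ k => (hL n).1 τ (a _ _ k)) (b h) (c h)
    obtain ⟨p, τ, i, j⟩ := d 0
    refine ⟨(emb m p + h, _), ⟨List.mem_map_of_mem (((hL n).2 _).2 ⟨τ, a _ _ i, rfl⟩), ⟨τ, i, rfl⟩, by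
      simpa [e0] using (mt (a _ _ i) h).2 j⟩, ?_⟩
    rintro ⟨g, _⟩ ⟨-, ⟨σ, k, rfl⟩, l⟩
    obtain ⟨q, rfl⟩ := tile_emb (List.mem_toFinset.1 l)
    obtain ⟨rfl, rfl⟩ := u 0 _ _ _ _ i k j ((mt (a _ _ k) h).1 (by simpa [e0] using l))
    rfl
  have key : ∀ n, CT (L n) ↔ ∃ j, M.it n j = none := fun n => by
    simp only [it_cf, Option.map_eq_none_iff]
    refine ⟨fun ⟨C, c1, c2⟩ => by_contra fun hn => ?_, fun ⟨j, hj⟩ => ?_⟩
    · let rp := fun T => Classical.epsilon fun τ => Al M e n (3 * K n + 4) τ ∧ (tile m (K n) τ).toFinset = T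
      have r : ∀ T ∈ (L n).map List.toFinset, Al M e n (3 * K n + 4) (rp T) ∧ (tile m (K n) (rp T)).toFinset = T := fun T a => by
        obtain ⟨l, b, c⟩ := List.mem_map.1 a
        obtain ⟨τ, a, d⟩ := ((hL n).2 l).1 b
        exact Classical.epsilon_spec (p := fun τ => Al M e n (3 * K n + 4) τ ∧ (tile m (K n) τ).toFinset = T) ⟨τ, a, d ▸ c⟩
      let Pl := fun (y : Fr (Fin (m + 2))) p τ => ∃ T ∈ (L n).map List.toFinset, (emb m p +ᵥ y).1 ∈ C T ∧ τ = rp T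
      have hA : ∀ y p τ, Pl y p τ → Al M e n (3 * K n + 4) τ := fun y p τ ⟨T, a, _, b⟩ => b ▸ (r T a).1
      have hW := fun y p τ a => (hL n).1 τ (hA y p τ a)
      have hT : ∀ y, Til (Sh (K n)) (Pl y) := fun y => ⟨fun u => ?_, ?_⟩
      rotate_left
      · obtain ⟨⟨g, T⟩, ⟨a, b, c⟩, -⟩ := c2 y.1 y.2 (emb m u)
        rw [← (r T a).2, List.mem_toFinset] at c
        obtain ⟨p, rfl⟩ := tile_emb c
        rw [← emb_add] at b c
        exact ⟨p + u, _, ⟨T, a, b, rfl⟩, (mt (r T a).1 0).1 (by simpa using c)⟩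
      · rintro u p _ p' _ ⟨T, a, b, rfl⟩ ⟨T', a', b', rfl⟩ c c'
        have := (c2 y.1 y.2 (emb m u)).unique (y₁ := (emb m p, T)) (y₂ := (emb m p', T'))
          ⟨a, b, by simpa [← List.mem_toFinset, (r T a).2] using (mt (r T a).1 0).2 c⟩ ⟨a', b', by simpa [← List.mem_toFinset, (r T' a').2] using (mt (r T' a').1 0).2 c'⟩
        obtain ⟨d, rfl⟩ := Prod.mk.inj this
        exact ⟨emb_inj d, rfl⟩
      have hF : ∀ y p τ τ', Pl y p τ → Pl y p τ' → τ = τ' := fun y p τ τ' a b => (clash (hW y) (hT y) a b (i := 0) (j := 0) (by simp) (by simp)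
        (by omega) (by omega) (.inl rfl)).2
      obtain ⟨x, T, a, b, hc⟩ : ∃ (x : Fr (Fin (m + 2))) (T : _), T ∈ (L n).map List.toFinset ∧ x.1 ∈ C T ∧ ((rp T).1 2 = 0 ∧ (rp T).1 3 = 0 ∨
          ∀ y p τ, Pl y p τ → τ.1 2 = 0 → τ.1 3 ≠ 0) := by
        by_cases k : ∀ y p τ, Pl y p τ → τ.1 2 = 0 → τ.1 3 ≠ 0
        · obtain ⟨p, _, ⟨T, a, b, -⟩, -⟩ := (hT ⟨fun h => decide (h = 0), fin_free (y := fun h => decide (h = 0)) (a := 0) (by simp) (by simp)⟩).1 0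
          exact ⟨_, T, a, b, .inr k⟩
        · simp only [not_forall, not_not] at k
          obtain ⟨y, p, _, ⟨T, a, b, rfl⟩, c⟩ := k
          exact ⟨_, T, a, b, .inl (by simpa using c)⟩
      obtain ⟨k, hk⟩ := cyl (c1 T).2 (x := x) b
      have kk : (k : ℤ) ≤ (3 * K n + 4) * k := le_mul_of_one_le_left (by positivity) (by omega)
      generalize hz : ((3 * K n + 4) * k : ℤ) = z at kk
      obtain ⟨y, hy⟩ := hk (emb m '' {(0, 0), (0, z + 1), (0, -z - 1), (-z - 1, 0)}) (Set.toFinite _) (by simp) (by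
        rintro _ ⟨v, i, rfl⟩ _ ⟨w, j, rfl⟩ l
        have : k < |v.1 - w.1| ∨ k < |v.2 - w.2| := by
          rcases i with rfl | rfl | rfl | rfl <;> rcases j with rfl | rfl | rfl | rfl <;> first | exact (l rfl).elim | simp only [lt_abs]; omega
        exact this.elim (fun o => ⟨0, by simpa [emb]⟩) fun o => ⟨1, by simpa [emb]⟩)
      have p0 : ∀ v ∈ ({(0, 0), (0, z + 1), (0, -z - 1), (-z - 1, 0)} : Set (ℤ × ℤ)), Pl y v (rp T) := fun v i => ⟨T, a, hy _ ⟨v, i, rfl⟩, rfl⟩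
      have nb := force (hW y) (hT y)
      obtain hc | hc := hc
      · obtain ⟨τ, d⟩ := ray he (hA y) nb (hF y) (p0 (0, 0) (by simp)) hc.1 hc.2 (fun j i => hn ⟨j, i⟩) k
        simpa [hz] using (clash (hW y) (hT y) d (p0 (0, z + 1) (by simp)) (i := 0) (j := 1) (by simp) (by simp [hz]) (by omega) (by omega) (.inl rfl)).1
      obtain d | d := ray' he (hA y) nb (hF y) (p0 (0, 0) (by simp)) (hc y) <;> obtain ⟨τ, d⟩ := d k
      · simpa [hz, sub_eq_iff_eq_add] using (clash (hW y) (hT y) (p0 (0, -z - 1) (by simp)) d (i := 0) (j := 1) (by simp) (by simp [hz])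
          (by omega) (by omega) (.inl rfl)).1
      · simpa [hz, sub_eq_iff_eq_add] using (clash (hW y) (hT y) (p0 (-z - 1, 0) (by simp)) d (i := 1) (j := 0) (by simp [hz]) (by simp)
          (by omega) (by omega) (.inr rfl)).1
    obtain ⟨ρ, r1, r2⟩ := boxes (X := Fr (Fin (m + 2))) ((3 * K n + 4) * (j + n + 3)) idx
    let v := fun x => ((ρ x).1 0, (ρ x).1 1, (ρ x).2 0, (ρ x).2 1)
    have fl := fun x : Fr (Fin (m + 2)) => fill (e := e) (K := K n) hj (v := fun u => v (emb m u +ᵥ x)) (fun u => ⟨(r2 _).1 0, (r2 _).1 1⟩) fun u a b c1 c2 c3 c4 => by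
      have := (r2 (emb m u +ᵥ x)).2 (emb m (a, b)) fun i => by
        have := (r2 (emb m u +ᵥ x)).1 i
        rw [show emb m (a, b) i = if i = 0 then a else if i = 1 then b else 0 from rfl]
        split_ifs with i0 i1
        exacts [i0 ▸ ⟨c1, c2⟩, i1 ▸ ⟨c3, c4⟩, ⟨this.1, this.2.1⟩]
      rw [vadd_vadd, ← emb_add, add_comm _ u] at this
      simp only [v]
      rw [show (u.1 + a, u.2 + b) = u + (a, b) from rfl, this]
      simp [emb]
    let N := emb m (3 * K n + 4, 3 * K n + 4)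
    refine ⟨fun T => Subtype.val '' {x | ∃ τ, Pc M e n (3 * K n + 4) (v (N +ᵥ x)) τ ∧ (tile m (K n) τ).toFinset = T}, fun T => ?_, fun x i => ?_⟩
    · refine cast (congrArg _ (Set.preimage_image_eq _ Subtype.val_injective).symm) ?_
      have := (r1.comp_continuous (continuous_const_vadd N)).comp fun r => ∃ τ, Pc M e n (3 * K n + 4) (r.1 0, r.1 1, r.2 0, r.2 1) τ ∧ (tile m (K n) τ).toFinset = T
      have := this.isClopen_fiber True
      simp only [eq_iff_iff, iff_true] at this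
      exact this
    have w : ∀ (p : ℤ × ℤ) h, N +ᵥ (emb m p + h) +ᵥ (⟨x, i⟩ : Fr _) = emb m (p.1 + (3 * K n + 4), p.2 + (3 * K n + 4)) +ᵥ h +ᵥ (⟨x, i⟩ : Fr _) := fun p h => by
      rw [vadd_vadd, vadd_vadd, ← add_assoc, ← emb_add, add_comm _ p]; rfl
    convert up n (fun g τ => Pc M e n (3 * K n + 4) (v (N +ᵥ g +ᵥ (⟨x, i⟩ : Fr _))) τ) (fun g τ => (fl (g +ᵥ ⟨x, i⟩)).2.2 _ τ)
      (fun h => by simpa only [w] using (fl (h +ᵥ ⟨x, i⟩)).1) (fun h => by simpa only [w] using (fl (h +ᵥ ⟨x, i⟩)).2.1) using 3 with g T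
    exact Subtype.val_injective.mem_set_image (a := g +ᵥ (⟨x, i⟩ : Fr _))
  choose b h1 h2 using fun n => H (L n) (fun T a => by
    obtain ⟨τ, a', rfl⟩ := ((hL n).2 T).1 a
    have := (hL n).1 τ a'
    exact List.ne_nil_of_mem ((mt a' (p := 0) (u := (3 * K n + 4, 3 * K n + 4)) 0).2 ⟨3 * K n + 4, 3 * K n + 4, by simp, by simp,
      .inl ⟨by unfold Bd Wf at *; omega, fun _ _ => by unfold hole; omega⟩⟩)) (by
    obtain ⟨Pl, a, b, c⟩ := blank (M := M) (e := e) (n := n) (K n)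
    refine ⟨_, up n (fun g => Pl (g 0, g 1)) (fun _ => c _) (fun h => a.shift (h 0, h 1)) fun h p τ s i j => ?_⟩
    simpa [mv, emb, add_right_comm, add_sub_right_comm] using b _ τ s i j)
  exact hM (ComputablePred.computable_iff.2 ⟨b, (hf.comp pL.to_comp).of_eq_tot h1, funext fun n => propext ((h2 n).trans (key n)).symm⟩)

end Pool.Agent.Results.MP_74d590_lc.Und
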